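import Pool.Agent.Lib.MP_5c9ca0_co.Defs

/-! General facts on the two flow numbers of a bridgeless graph. -/

namespace Pool.Agent.Lib.MP_5c9ca0_co

open Finset Filter Topology

variable {n m : ℕ}

/-- Inflow minus outflow. -/
def MGraph.dv (G : MGraph n m) {A : Type} [AddCommGroup A] (φ : Fin m → A) (v : Fin n) : A :=
  ∑ e, ((if G.tgt e = v then φ e else 0) - (if G.src e = v then φ e else 0))

theorem MGraph.flow_iff (G : MGraph n m) {A : Type} [AddCommGroup A] (φ : Fin m → A) :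
    G.IsFlow φ ↔ ∀ v, G.dv φ v = 0 := by
  unfold MGraph.IsFlow MGraph.dv
  refine forall_congr' fun v => ?_
  rw [sum_sub_distrib, sub_eq_zero, sum_filter, sum_filter]

theorem MGraph.IsFlow.map {G : MGraph n m} {A B : Type} [AddCommMonoid A] [AddCommMonoid B]
    {φ : Fin m → A} (h : G.IsFlow φ) (g : A →+ B) : G.IsFlow fun e => g (φ e) := fun v => by
  rw [← map_sum, ← map_sum, h v]

theorem MGraph.IsFlow.add {G : MGraph n m} {A : Type} [AddCommMonoid A] {φ ψ : Fin m → A}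
    (h : G.IsFlow φ) (k : G.IsFlow ψ) : G.IsFlow fun e => φ e + ψ e := fun v => by
  rw [sum_add_distrib, sum_add_distrib, h v, k v]

theorem MGraph.IsFlow.mul {G : MGraph n m} {φ : Fin m → ℝ} (h : G.IsFlow φ) (c : ℝ) :
    G.IsFlow fun e => c * φ e := h.map (AddMonoidHom.mulLeft c)

theorem MGraph.IsFlow.pair {G : MGraph n m} {φ ψ : Fin m → ℝ} (h : G.IsFlow φ) (k : G.IsFlow ψ) :
    G.IsFlow fun e => (φ e, ψ e) := fun v => by
  ext
  · simpa [Prod.fst_sum] using h v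
  · simpa [Prod.snd_sum] using k v

/-- The real flows as a subspace. -/
def MGraph.fl (G : MGraph n m) : Submodule ℝ (Fin m → ℝ) where
  carrier := {φ | G.IsFlow φ}
  add_mem' h k := MGraph.IsFlow.add h k
  zero_mem' := fun v => by simp
  smul_mem' c _ h := MGraph.IsFlow.mul h c

theorem MGraph.dv_add (G : MGraph n m) (φ ψ : Fin m → ℝ) (v : Fin n) :
    G.dv (φ + ψ) v = G.dv φ v + G.dv ψ v := by
  unfold MGraph.dv
  rw [← sum_add_distrib]
  refine sum_congr rfl fun e _ => ?_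
  simp only [Pi.add_apply]
  split_ifs <;> ring

theorem MGraph.dv_single (G : MGraph n m) (f : Fin m) (c : ℝ) (v : Fin n) :
    G.dv (Pi.single f c) v = (if G.tgt f = v then c else 0) - (if G.src f = v then c else 0) := by
  unfold MGraph.dv
  rw [sum_eq_single f]
  · simp
  · intro e _ he
    simp [Pi.single_eq_of_ne he]
  · simp

theorem MGraph.exists_nz (G : MGraph n m) (h : G.Bridgeless) :
    ∃ φ : Fin m → ℝ, G.IsFlow φ ∧ ∀ e, φ e ≠ 0 := by
  refine Module.Dual.exists_forall_mem_ne_zero_of_forall_exists G.fl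
    (fun e => LinearMap.proj e) fun e => ?_
  have key : ∀ b, Relation.ReflTransGen
      (fun a b => ∃ f, f ≠ e ∧ ((G.src f = a ∧ G.tgt f = b) ∨ (G.src f = b ∧ G.tgt f = a)))
      (G.src e) b → ∃ ψ : Fin m → ℝ, ψ e = 0 ∧
        ∀ v, G.dv ψ v = (if b = v then 1 else 0) - (if G.src e = v then 1 else 0) := by
    intro b hb
    induction hb with
    | refl => exact ⟨0, rfl, fun v => by simp [MGraph.dv]⟩
    | tail _ hf ih =>
      obtain ⟨ψ, h0, h1⟩ := ih
      obtain ⟨f, hfe, ⟨rfl, rfl⟩ | ⟨rfl, rfl⟩⟩ := hf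
      · refine ⟨ψ + Pi.single f 1, by simp [h0, Pi.single_eq_of_ne hfe.symm], fun v => ?_⟩
        rw [G.dv_add, h1, G.dv_single]
        ring
      · refine ⟨ψ + Pi.single f (-1), by simp [h0, Pi.single_eq_of_ne hfe.symm], fun v => ?_⟩
        rw [G.dv_add, h1, G.dv_single]
        split_ifs <;> ring
  obtain ⟨ψ, h0, h1⟩ := key _ (h e)
  refine ⟨ψ + Pi.single e (-1), (G.flow_iff _).2 fun v => ?_, by simp [h0]⟩
  rw [G.dv_add, h1, G.dv_single]
  split_ifs <;> ring

theorem MGraph.bridgeless_of_nz (G : MGraph n m) {φ : Fin m → ℝ} (h : G.IsFlow φ)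
    (h0 : ∀ e, φ e ≠ 0) : G.Bridgeless := by
  classical
  intro e
  by_contra hcon
  set R : Fin n → Fin n → Prop := fun a b =>
    ∃ f, f ≠ e ∧ ((G.src f = a ∧ G.tgt f = b) ∨ (G.src f = b ∧ G.tgt f = a)) with hR
  let p : Fin n → ℝ := fun v => if Relation.ReflTransGen R (G.src e) v then 1 else 0
  have h2 : ∑ f, (p (G.tgt f) - p (G.src f)) * φ f = 0 := by
    have : ∑ v, p v * G.dv φ v = 0 := by simp [(G.flow_iff φ).1 h]
    rw [← this]
    simp only [MGraph.dv, mul_sum]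
    rw [sum_comm]
    refine sum_congr rfl fun f _ => ?_
    simp [mul_sub, sum_sub_distrib, sub_mul]
  rw [sum_eq_single e] at h2
  · have a1 : p (G.src e) = 1 := if_pos Relation.ReflTransGen.refl
    have a2 : p (G.tgt e) = 0 := if_neg hcon
    rw [a1, a2] at h2
    exact h0 e (by simpa using h2)
  · intro f _ hf
    have : Relation.ReflTransGen R (G.src e) (G.src f) ↔
        Relation.ReflTransGen R (G.src e) (G.tgt f) :=
      ⟨fun hh => hh.tail ⟨f, hf, Or.inl ⟨rfl, rfl⟩⟩, fun hh => hh.tail ⟨f, hf, Or.inr ⟨rfl, rfl⟩⟩⟩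
    simp only [p, this, sub_self, zero_mul]
  · simp

/-- Admissible bounds for a family `W` of vectors with covering pattern `I`. -/
def Ad {ι E : Type} (W : Set (ι → ℝ)) (I : E → ι → Prop) : Set ℝ :=
  {r | 2 ≤ r ∧ ∃ x ∈ W, (∀ e, ∃ i, I e i ∧ 1 ≤ |x i|) ∧ ∀ i, |x i| ≤ r - 1}

theorem Ad.least {ι E : Type} [Fintype ι] {W : Set (ι → ℝ)} (hW : IsClosed W) (I : E → ι → Prop)
    (h : (Ad W I).Nonempty) : IsLeast (Ad W I) (sInf (Ad W I)) := by
  obtain ⟨R, hR, y, hy, hy1, hy2⟩ := h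
  let K : Set (ℝ × (ι → ℝ)) := {z | 2 ≤ z.1 ∧ z.2 ∈ W ∧ (∀ e, ∃ i, I e i ∧ 1 ≤ |z.2 i|) ∧
    ∀ i, |z.2 i| ≤ z.1 - 1}
  have hK : IsClosed K := by
    refine (isClosed_le continuous_const continuous_fst).inter
      ((hW.preimage continuous_snd).inter (IsClosed.inter ?_ ?_))
    · change IsClosed {z : ℝ × (ι → ℝ) | ∀ e, ∃ i, I e i ∧ 1 ≤ |z.2 i|}
      simp only [Set.ofPred_forall, Set.ofPred_exists]
      refine isClosed_iInter fun e => isClosed_iUnion_of_finite fun i => ?_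
      exact isClosed_const.inter (isClosed_le (f := fun _ : ℝ × (ι → ℝ) => (1 : ℝ))
        (g := fun z => |z.2 i|) continuous_const (by fun_prop))
    · change IsClosed {z : ℝ × (ι → ℝ) | ∀ i, |z.2 i| ≤ z.1 - 1}
      simp only [Set.ofPred_forall]
      exact isClosed_iInter fun i => isClosed_le (by fun_prop) (by fun_prop)
  have hC : IsCompact (K ∩ Set.Icc 2 R ×ˢ Set.Icc (fun _ => -R) (fun _ => R)) :=
    (isCompact_Icc.prod isCompact_Icc).inter_left hK
  have mem : ∀ r x, (r, x) ∈ K → r ≤ R →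
      (r, x) ∈ K ∩ Set.Icc 2 R ×ˢ Set.Icc (fun _ => -R) (fun _ => R) := by
    intro r x hz hr
    refine ⟨hz, ⟨hz.1, hr⟩, fun i => ?_, fun i => ?_⟩
    · have := abs_le.1 (hz.2.2.2 i)
      show -R ≤ x i
      linarith [this.1]
    · have := abs_le.1 (hz.2.2.2 i)
      show x i ≤ R
      linarith [this.2]
  obtain ⟨z, hz, hmin⟩ := hC.exists_isMinOn ⟨_, mem R y ⟨hR, hy, hy1, hy2⟩ le_rfl⟩
    continuous_fst.continuousOn
  have : IsLeast (Ad W I) z.1 := by
    refine ⟨⟨hz.1.1, z.2, hz.1.2.1, hz.1.2.2.1, hz.1.2.2.2⟩, ?_⟩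
    rintro r ⟨hr, x, hx, hx1, hx2⟩
    by_cases hrR : r ≤ R
    · exact hmin (mem r x ⟨hr, hx, hx1, hx2⟩ hrR)
    · exact hz.2.1.2.trans (not_le.1 hrR).le
  rwa [this.csInf_eq]

theorem Ad.rat {ι E : Type} [Fintype ι] {W : Set (ι → ℝ)}
    (hW : ∀ g : ℝ →+ ℝ, ∀ x ∈ W, (fun i => g (x i)) ∈ W) {I : E → ι → Prop} {r : ℝ}
    (h : IsLeast (Ad W I) r) : ∃ q : ℚ, r = q := by
  by_contra hcon
  obtain ⟨⟨hr, x, hx, hx1, hx2⟩, hmin⟩ := h
  have hn : r ∉ Submodule.span ℚ {(1 : ℝ)} := by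
    rw [Submodule.mem_span_singleton]
    rintro ⟨a, ha⟩
    exact hcon ⟨a, by rw [← ha]; simp⟩
  obtain ⟨f, hf, hk⟩ := Submodule.exists_le_ker_of_notMem hn
  have f1 : f 1 = 0 := hk (Submodule.mem_span_singleton_self _)
  have hf' : (f r : ℝ) ≠ 0 := by exact_mod_cast hf
  let g : ℝ → ℝ →+ ℝ := fun δ => AddMonoidHom.id ℝ +
    (AddMonoidHom.mulLeft (-δ / (f r : ℝ))).comp ((Rat.castHom ℝ).toAddMonoidHom.comp
      f.toAddMonoidHom)
  have gd : ∀ δ y, g δ y = y + -δ / (f r : ℝ) * (f y : ℝ) := fun δ y => rfl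
  have g1 : ∀ δ, g δ 1 = 1 := fun δ => by rw [gd, f1]; simp
  have gr : ∀ δ, g δ r = r - δ := fun δ => by rw [gd]; field_simp; ring
  have lt : ∀ a b : ℝ, a < b → ∀ᶠ δ in 𝓝[>] (0 : ℝ), g δ a ≤ g δ b := by
    intro a b hab
    refine Eventually.filter_mono nhdsWithin_le_nhds ?_
    have c : ∀ y, ContinuousAt (fun δ => g δ y) 0 := fun y => by
      simp only [gd]
      fun_prop
    exact (c a).eventually_lt (c b) (by simpa [gd] using hab) |>.mono fun _ => le_of_lt
  have le : ∀ a b : ℝ, a ≤ b → ∀ᶠ δ in 𝓝[>] (0 : ℝ), g δ a ≤ g δ b := by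
    intro a b hab
    rcases hab.eq_or_lt with rfl | hab
    · simp
    · exact lt a b hab
  have e1 : ∀ᶠ δ in 𝓝[>] (0 : ℝ), ∀ i, 1 ≤ |x i| → 1 ≤ |g δ (x i)| := by
    refine eventually_all.2 fun i => ?_
    by_cases hi : 1 ≤ |x i|
    · rcases le_abs.1 hi with a | a
      · exact (le _ _ a).mono fun δ b _ => le_abs.2 (Or.inl (by rwa [g1] at b))
      · exact (le _ _ a).mono fun δ b _ => le_abs.2 (Or.inr (by rwa [g1, map_neg] at b))
    · simp [hi]
  have e2 : ∀ᶠ δ in 𝓝[>] (0 : ℝ), ∀ i, |g δ (x i)| ≤ r - δ - 1 := by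
    refine eventually_all.2 fun i => ?_
    have a := abs_le.1 (hx2 i)
    filter_upwards [le _ _ a.1, le _ _ a.2] with δ b c
    rw [map_neg, map_sub, g1, gr] at b
    rw [map_sub, g1, gr] at c
    exact abs_le.2 ⟨b, c⟩
  have e3 := le (1 + 1) r (by linarith)
  obtain ⟨δ, ⟨⟨d1, d2⟩, d3⟩, d0⟩ := (((e1.and e2).and e3).and self_mem_nhdsWithin).exists
  rw [map_add, g1, gr] at d3
  have : r ≤ r - δ := hmin ⟨by linarith, _, hW (g δ) x hx,
    fun e => (hx1 e).imp fun i hi => ⟨hi.1, d1 i hi.2⟩, d2⟩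
  have d0 : 0 < δ := d0
  linarith

/-- A non-empty set of edges in which no vertex meets exactly one edge carries a non-zero flow. -/
theorem MGraph.exists_supp (G : MGraph n m) {A : Type} [AddCommGroup A] {ψ : Fin m → A}
    (h : G.IsFlow ψ) {e0 : Fin m} (h0 : ψ e0 ≠ 0) :
    ∃ y : Fin m → ℝ, G.IsFlow y ∧ (∃ e, y e ≠ 0) ∧ ∀ e, ψ e = 0 → y e = 0 := by
  classical
  by_cases hl : ∃ e, ψ e ≠ 0 ∧ G.src e = G.tgt e
  · obtain ⟨e, he, hl⟩ := hl
    refine ⟨Pi.single e 1, (G.flow_iff _).2 fun v => ?_, ⟨e, by simp⟩, fun f hf => ?_⟩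
    · rw [G.dv_single, hl, sub_self]
    · exact Pi.single_eq_of_ne (fun k => he (by rwa [k] at hf)) _
  push Not at hl
  let F : Finset (Fin m) := univ.filter fun e => ψ e ≠ 0
  let T : Finset (Fin n) := univ.filter fun v => ∃ e ∈ F, G.src e = v ∨ G.tgt e = v
  have hF : ∀ e, e ∈ F ↔ ψ e ≠ 0 := fun e => by simp [F]
  have hc : T.card * 2 ≤ F.card * 2 := by
    refine card_mul_le_card_mul (fun v e => G.src e = v ∨ G.tgt e = v) (fun v hv => ?_)
      fun e _ => ?_
    · obtain ⟨e, he, hv⟩ := (mem_filter.1 hv).2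
      by_contra hcon
      have hone := card_le_one.1 (Nat.le_of_lt_succ (not_le.1 hcon))
      have := (G.flow_iff ψ).1 h v
      unfold MGraph.dv at this
      rw [sum_eq_single e] at this
      · have k := hl e ((hF e).1 he)
        rcases hv with rfl | rfl
        · rw [if_neg k.symm, if_pos rfl] at this
          exact (hF e).1 he (by simpa using this)
        · rw [if_neg k, if_pos rfl] at this
          exact (hF e).1 he (by simpa using this)
      · intro f _ hf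
        by_cases k : ψ f = 0
        · simp [k]
        · have : ¬ (G.src f = v ∨ G.tgt f = v) := fun k' =>
            hf (hone f (mem_filter.2 ⟨(hF f).2 k, k'⟩) e (mem_filter.2 ⟨he, hv⟩))
          rw [not_or] at this
          simp [this.1, this.2]
      · simp
    · refine (card_le_card (t := {G.src e, G.tgt e}) fun v hv => ?_).trans card_le_two
      have := (mem_filter.1 hv).2
      simp only [mem_insert, mem_singleton]
      exact this.imp Eq.symm Eq.symm
  let ex : (F → ℝ) → Fin m → ℝ := fun y e => if k : e ∈ F then y ⟨e, k⟩ else 0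
  have zero : ∀ y v, v ∉ T → G.dv (ex y) v = 0 := by
    intro y v hv
    refine sum_eq_zero fun e _ => ?_
    by_cases k : e ∈ F
    · have : ¬ (G.src e = v ∨ G.tgt e = v) := fun k' => hv (mem_filter.2 ⟨mem_univ _, e, k, k'⟩)
      rw [not_or] at this
      simp [this.1, this.2]
    · simp [ex, k]
  let D : (F → ℝ) →ₗ[ℝ] (T → ℝ) :=
    { toFun := fun y v => G.dv (ex y) v
      map_add' := fun y z => funext fun v => by
        rw [Pi.add_apply, ← G.dv_add]
        congr 1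
        funext e
        simp only [ex, Pi.add_apply]
        split_ifs <;> simp
      map_smul' := fun c y => funext fun v => by
        simp only [MGraph.dv, ex, Pi.smul_apply, smul_eq_mul, RingHom.id_apply, mul_sum]
        refine sum_congr rfl fun e _ => ?_
        split_ifs <;> simp }
  have hD : ¬ Function.Injective D := by
    intro hi
    have c1 := LinearMap.finrank_le_finrank_of_injective hi
    simp only [Module.finrank_fintype_fun_eq_card, Fintype.card_coe] at c1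
    have hs := (LinearMap.injective_iff_surjective_of_finrank_eq_finrank (f := D) (by
      simp only [Module.finrank_fintype_fun_eq_card, Fintype.card_coe]; omega)).1 hi
    obtain ⟨y, hy⟩ := hs fun _ => 1
    have s1 : ∑ v, G.dv (ex y) v = 0 := by
      unfold MGraph.dv
      rw [sum_comm]
      simp [sum_sub_distrib]
    rw [← sum_subset (subset_univ T) fun v _ hv => zero y v hv, ← sum_coe_sort] at s1
    have s2 : ∀ v : T, G.dv (ex y) v = 1 := fun v => congrFun hy v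
    simp only [s2, sum_const, card_univ, Fintype.card_coe, nsmul_eq_mul, mul_one,
      Nat.cast_eq_zero, card_eq_zero] at s1
    have : G.src e0 ∈ T := mem_filter.2 ⟨mem_univ _, e0, (hF e0).2 h0, Or.inl rfl⟩
    simp [s1] at this
  rw [injective_iff_map_eq_zero] at hD
  push Not at hD
  obtain ⟨y, hy, hy0⟩ := hD
  refine ⟨ex y, (G.flow_iff _).2 fun v => ?_, ?_, fun e he => dif_neg fun k => (hF e).1 k he⟩
  · by_cases hv : v ∈ T
    · exact congrFun hy ⟨v, hv⟩
    · exact zero y v hv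
  · obtain ⟨e, he⟩ := Function.ne_iff.1 hy0
    exact ⟨e, by simpa [ex] using he⟩

/-- Rounding of a real flow between integer bounds. -/
theorem MGraph.round (G : MGraph n m) (lo hi : Fin m → ℤ) (k : ℕ) : ∀ x : Fin m → ℝ, G.IsFlow x →
    (∀ e, lo e ≤ x e ∧ x e ≤ hi e) → {e | ¬ ∃ j : ℤ, x e = j}.ncard ≤ k →
    ∃ z : Fin m → ℤ, G.IsFlow (fun e => (z e : ℝ)) ∧ ∀ e, lo e ≤ z e ∧ z e ≤ hi e := by
  have fin : ∀ x : Fin m → ℝ, G.IsFlow x → (∀ e, lo e ≤ x e ∧ x e ≤ hi e) →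
      (∀ e, ∃ j : ℤ, x e = j) →
      ∃ z : Fin m → ℤ, G.IsFlow (fun e => (z e : ℝ)) ∧ ∀ e, lo e ≤ z e ∧ z e ≤ hi e := by
    intro x hx hb hall
    choose z hz using hall
    obtain rfl : x = fun e => (z e : ℝ) := funext hz
    exact ⟨z, hx, fun e => ⟨Int.cast_le.1 (hb e).1, Int.cast_le.1 (hb e).2⟩⟩
  induction k with
  | zero =>
    intro x hx hb hc
    have := (Set.ncard_eq_zero (Set.toFinite _)).1 (Nat.le_zero.1 hc)
    exact fin x hx hb fun e => not_not.1 fun he => (Set.ext_iff.1 this e).1 he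
  | succ k ih =>
    intro x hx hb hc
    by_cases hall : ∀ e, ∃ j : ℤ, x e = j
    · exact fin x hx hb hall
    obtain ⟨e0, h0⟩ := not_forall.1 hall
    have hq : ∀ a : ℝ, QuotientAddGroup.mk' (AddSubgroup.zmultiples (1 : ℝ)) a = 0 ↔
        ∃ j : ℤ, a = j := fun a => by
      rw [QuotientAddGroup.mk'_apply, QuotientAddGroup.eq_zero_iff, AddSubgroup.mem_zmultiples_iff]
      simp [eq_comm]
    obtain ⟨y, hy, ⟨e1, h1⟩, hs⟩ := G.exists_supp
      (hx.map (QuotientAddGroup.mk' (AddSubgroup.zmultiples (1 : ℝ)))) (e0 := e0)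
      fun h => h0 ((hq _).1 h)
    simp only [hq] at hs
    let τ : Fin m → ℝ := fun e => if 0 < y e then (hi e - x e) / y e else (lo e - x e) / y e
    obtain ⟨e, he, hm⟩ := exists_min_image (univ.filter fun e => y e ≠ 0) τ ⟨e1, by simpa⟩
    simp only [mem_filter, mem_univ, true_and] at he hm
    have t0 : 0 ≤ τ e := by
      have := hb e
      simp only [τ]
      split_ifs with c
      · exact div_nonneg (by linarith) c.le
      · exact div_nonneg_of_nonpos (by linarith) (not_lt.1 c)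
    have same : ∀ f, (∃ j : ℤ, x f = j) → x f + τ e * y f = x f := fun f hf => by
      rw [hs f hf, mul_zero, add_zero]
    have int : ∃ j : ℤ, x e + τ e * y e = j := by
      simp only [τ]
      split_ifs with c
      · exact ⟨hi e, by field_simp; simp⟩
      · exact ⟨lo e, by field_simp; simp⟩
    refine ih (fun f => x f + τ e * y f) (hx.add (hy.mul _)) (fun f => ?_) ?_
    · have b := hb f
      rcases lt_trichotomy (y f) 0 with c | c | c
      · have := hm f c.ne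
        simp only [τ, if_neg c.not_gt] at this
        change τ e ≤ _ at this
        rw [le_div_iff_of_neg c] at this
        exact ⟨by linarith, by nlinarith⟩
      · simpa [c] using hb f
      · have := hm f c.ne'
        simp only [τ, if_pos c] at this
        change τ e ≤ _ at this
        rw [le_div_iff₀ c] at this
        exact ⟨by nlinarith, by linarith⟩
    · refine Nat.le_of_lt_succ (lt_of_lt_of_le (Set.ncard_lt_ncard ?_ (Set.toFinite _)) hc)
      refine ⟨fun f hf k => hf ?_, fun k => ?_⟩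
      · rwa [same f k]
      · exact k (fun k' => he (hs e k')) int

/-- The set whose infimum is the circular flow number. -/
def MGraph.S1 (G : MGraph n m) : Set ℝ :=
  {r : ℝ | 2 ≤ r ∧ ∃ φ : Fin m → ℝ, G.IsFlow φ ∧ ∀ e, 1 ≤ |φ e| ∧ |φ e| ≤ r - 1}

/-- The set whose infimum is the Chebyshev flow number. -/
def MGraph.S2 (G : MGraph n m) : Set ℝ :=
  {r : ℝ | 2 ≤ r ∧ ∃ φ : Fin m → ℝ × ℝ, G.IsFlow φ ∧
    ∀ e, 1 ≤ max |(φ e).1| |(φ e).2| ∧ max |(φ e).1| |(φ e).2| ≤ r - 1}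

theorem MGraph.S1_eq (G : MGraph n m) : G.S1 = Ad {x | G.IsFlow x} fun e i => i = e := by
  ext r
  refine and_congr_right fun _ => ⟨?_, ?_⟩
  · rintro ⟨φ, h, b⟩
    exact ⟨φ, h, fun e => ⟨e, rfl, (b e).1⟩, fun e => (b e).2⟩
  · rintro ⟨φ, h, b, c⟩
    exact ⟨φ, h, fun e => ⟨by obtain ⟨i, rfl, k⟩ := b e; exact k, c e⟩⟩

theorem MGraph.S2_eq (G : MGraph n m) : G.S2 = Ad
    {x : Fin m ⊕ Fin m → ℝ | G.IsFlow (fun e => x (.inl e)) ∧ G.IsFlow fun e => x (.inr e)}
    fun e i => i = .inl e ∨ i = .inr e := by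
  ext r
  refine and_congr_right fun _ => ⟨?_, ?_⟩
  · rintro ⟨φ, h, b⟩
    refine ⟨Sum.elim (fun e => (φ e).1) fun e => (φ e).2,
      ⟨h.map (AddMonoidHom.fst ℝ ℝ), h.map (AddMonoidHom.snd ℝ ℝ)⟩, fun e => ?_, ?_⟩
    · rcases le_max_iff.1 (b e).1 with k | k
      · exact ⟨_, Or.inl rfl, k⟩
      · exact ⟨_, Or.inr rfl, k⟩
    · rintro (e | e)
      · exact (le_max_left _ _).trans (b e).2
      · exact (le_max_right _ _).trans (b e).2
  · rintro ⟨x, h, b, c⟩
    refine ⟨_, h.1.pair h.2, fun e => ⟨?_, max_le (c _) (c _)⟩⟩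
    obtain ⟨i, rfl | rfl, k⟩ := b e
    · exact le_max_of_le_left k
    · exact le_max_of_le_right k

theorem MGraph.closed (G : MGraph n m) : IsClosed {x : Fin m → ℝ | G.IsFlow x} :=
  G.fl.closed_of_finiteDimensional

theorem MGraph.S1_sub (G : MGraph n m) : G.S1 ⊆ G.S2 := by
  rintro r ⟨hr, φ, h, b⟩
  exact ⟨hr, _, h.pair h, fun e => by simpa using b e⟩

theorem MGraph.S1_ne (G : MGraph n m) (h : G.Bridgeless) : G.S1.Nonempty := by
  obtain ⟨φ, hφ, h0⟩ := G.exists_nz h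
  obtain ⟨c, hc⟩ := (Set.finite_range fun e => |φ e|⁻¹).bddAbove
  obtain ⟨R, hR⟩ := (Set.finite_range fun e => |c * φ e|).bddAbove
  refine ⟨max 2 (R + 1), le_max_left _ _, _, hφ.mul c, fun e => ⟨?_, ?_⟩⟩
  · have a : |φ e|⁻¹ ≤ c := hc ⟨e, rfl⟩
    have p := abs_pos.2 (h0 e)
    rw [abs_mul]
    rw [inv_le_iff_one_le_mul₀ p] at a
    exact a.trans (mul_le_mul_of_nonneg_right (le_abs_self c) p.le)
  · have a : |c * φ e| ≤ R := hR ⟨e, rfl⟩
    linarith [le_max_right 2 (R + 1)]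

theorem MGraph.circ_least (G : MGraph n m) (h : G.S1.Nonempty) : IsLeast G.S1 G.circ := by
  change IsLeast G.S1 (sInf G.S1)
  rw [G.S1_eq] at h ⊢
  exact Ad.least G.closed _ h

theorem MGraph.cheb_least (G : MGraph n m) (h : G.S2.Nonempty) : IsLeast G.S2 G.cheb := by
  change IsLeast G.S2 (sInf G.S2)
  rw [G.S2_eq] at h ⊢
  exact Ad.least ((G.closed.preimage (f := fun (x : Fin m ⊕ Fin m → ℝ) e => x (.inl e))
    (by fun_prop)).inter (G.closed.preimage (f := fun (x : Fin m ⊕ Fin m → ℝ) e => x (.inr e))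
    (by fun_prop))) _ h

theorem MGraph.circ_rat (G : MGraph n m) (h : G.Bridgeless) : ∃ q : ℚ, G.circ = q := by
  have := G.circ_least (G.S1_ne h)
  rw [G.S1_eq] at this
  refine Ad.rat (fun g x hx => ?_) this
  exact MGraph.IsFlow.map hx g

theorem MGraph.cheb_rat (G : MGraph n m) (h : G.Bridgeless) : ∃ q : ℚ, G.cheb = q := by
  have := G.cheb_least ((G.S1_ne h).mono G.S1_sub)
  rw [G.S2_eq] at this
  refine Ad.rat (fun g x hx => ?_) this
  exact ⟨hx.1.map g, hx.2.map g⟩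

theorem MGraph.two_le_cheb (G : MGraph n m) (h : G.Bridgeless) : 2 ≤ G.cheb :=
  (G.cheb_least ((G.S1_ne h).mono G.S1_sub)).1.1

theorem MGraph.cheb_le_circ (G : MGraph n m) (h : G.Bridgeless) : G.cheb ≤ G.circ :=
  (G.cheb_least ((G.S1_ne h).mono G.S1_sub)).2 (G.S1_sub (G.circ_least (G.S1_ne h)).1)

theorem MGraph.round_one (G : MGraph n m) {x : Fin m → ℝ} (hx : G.IsFlow x) (hb : ∀ e, |x e| ≤ 1) :
    ∃ z : Fin m → ℤ, G.IsFlow (fun e => (z e : ℝ)) ∧ ∀ e, |z e| ≤ 1 ∧ (1 ≤ |x e| → 1 ≤ |z e|) := by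
  obtain ⟨z, z1, z2⟩ := G.round (fun e => if 1 ≤ x e then 1 else -1)
    (fun e => if x e ≤ -1 then -1 else 1) _ x hx (fun e => by
      have := abs_le.1 (hb e)
      constructor <;> split_ifs <;> push_cast <;> linarith) le_rfl
  refine ⟨z, z1, fun e => ?_⟩
  have := z2 e
  simp only [abs_le, le_abs]
  refine ⟨by split_ifs at this <;> omega, ?_⟩
  rintro (k | k)
  · rw [if_pos k] at this
    omega
  · rw [if_pos (show x e ≤ -1 by linarith)] at this
    omega

theorem MGraph.four_of_two (G : MGraph n m) (h : 2 ∈ G.S2) : 4 ∈ G.S1 := by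
  obtain ⟨-, φ, hφ, b⟩ := h
  obtain ⟨x, x1, x2⟩ := G.round_one (x := fun e => (φ e).1) (hφ.map (AddMonoidHom.fst ℝ ℝ))
    fun e => by linarith [(b e).2, le_max_left |(φ e).1| |(φ e).2|]
  obtain ⟨y, y1, y2⟩ := G.round_one (x := fun e => (φ e).2) (hφ.map (AddMonoidHom.snd ℝ ℝ))
    fun e => by linarith [(b e).2, le_max_right |(φ e).1| |(φ e).2|]
  refine ⟨by norm_num, _, x1.add (y1.mul 2), fun e => ?_⟩
  have big := (le_max_iff.1 (b e).1).imp (x2 e).2 (y2 e).2
  have p := (x2 e).1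
  have q := (y2 e).1
  have : 1 ≤ |x e + 2 * y e| ∧ |x e + 2 * y e| ≤ 4 - 1 := by
    simp only [abs_le, le_abs] at p q big ⊢
    omega
  exact_mod_cast this

theorem MGraph.halve (G : MGraph n m) {z : Fin m → ℤ} (hz : G.IsFlow fun e => (z e : ℝ)) :
    ∃ w : Fin m → ℤ, G.IsFlow (fun e => (w e : ℝ)) ∧ ∀ e, |z e - 2 * w e| ≤ 1 := by
  obtain ⟨w, w1, w2⟩ := G.round (fun e => z e / 2) (fun e => (z e + 1) / 2) _ _ (hz.mul 2⁻¹)
    (fun e => by
      have a : ((2 * (z e / 2) : ℤ) : ℝ) ≤ (z e : ℤ) := by exact_mod_cast (by omega)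
      have b : ((z e : ℤ) : ℝ) ≤ (2 * ((z e + 1) / 2) : ℤ) := by exact_mod_cast (by omega)
      rw [Int.cast_mul, Int.cast_ofNat] at a b
      constructor <;> linarith) le_rfl
  refine ⟨w, w1, fun e => ?_⟩
  have := w2 e
  rw [abs_le]
  omega

theorem MGraph.two_of_four (G : MGraph n m) (h : 4 ∈ G.S1) : 2 ∈ G.S2 := by
  obtain ⟨-, φ, hφ, b⟩ := h
  obtain ⟨z, z1, z2⟩ := G.round (fun e => if 0 ≤ φ e then 1 else -3)
    (fun e => if 0 ≤ φ e then 3 else -1) _ φ hφ (fun e => by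
      have := b e
      split_ifs with c
      · rw [abs_of_nonneg c] at this
        constructor <;> push_cast <;> linarith [this.1, this.2]
      · rw [abs_of_neg (not_le.1 c)] at this
        constructor <;> push_cast <;> linarith [this.1, this.2]) le_rfl
  obtain ⟨w, w1, w2⟩ := G.halve z1
  obtain ⟨v, v1, v2⟩ := G.halve w1
  refine ⟨le_rfl, _, (z1.add (w1.mul (-2))).pair (w1.add (v1.mul (-2))), fun e => ?_⟩
  have p := w2 e
  have q := v2 e
  have s := z2 e
  have : 1 ≤ max |z e - 2 * w e| |w e - 2 * v e| ∧ max |z e - 2 * w e| |w e - 2 * v e| ≤ 1 := by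
    simp only [abs_le, le_abs, le_max_iff, max_le_iff] at p q ⊢
    split_ifs at s <;> omega
  show 1 ≤ max |(z e : ℝ) + -2 * w e| |(w e : ℝ) + -2 * v e| ∧
    max |(z e : ℝ) + -2 * w e| |(w e : ℝ) + -2 * v e| ≤ 2 - 1
  simp only [neg_mul, ← sub_eq_add_neg, show (2 : ℝ) - 1 = 1 by norm_num]
  exact_mod_cast this

theorem MGraph.cheb_two (G : MGraph n m) (h : G.Bridgeless) (h4 : G.circ ≤ 4) : G.cheb = 2 := by
  obtain ⟨-, φ, hφ, b⟩ := (G.circ_least (G.S1_ne h)).1
  exact IsLeast.csInf_eq ⟨G.two_of_four ⟨by norm_num, φ, hφ, fun e =>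
    ⟨(b e).1, by linarith [(b e).2]⟩⟩, fun r hr => hr.1⟩

theorem MGraph.two_lt_cheb (G : MGraph n m) (h : G.Bridgeless) (h4 : 4 < G.circ) : 2 < G.cheb := by
  refine (G.two_le_cheb h).lt_of_ne fun k => ?_
  have := (G.cheb_least ((G.S1_ne h).mono G.S1_sub)).1
  rw [← k] at this
  exact h4.not_ge ((G.circ_least (G.S1_ne h)).2 (G.four_of_two this))

/-- The ratio is a rational number, at least 1, and below `s / 2` if `circ ≤ s` and `4 < s`. -/
theorem MGraph.ratio (G : MGraph n m) (h : G.Bridgeless) : ∃ q : ℚ, G.circ / G.cheb = q ∧ 1 ≤ q ∧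
    ∀ s : ℝ, 4 < s → G.circ ≤ s → (q : ℝ) < s / 2 := by
  obtain ⟨a, ha⟩ := G.circ_rat h
  obtain ⟨b, hb⟩ := G.cheb_rat h
  have h2 := G.two_le_cheb h
  have h1 := G.cheb_le_circ h
  have e : G.circ / G.cheb = (a / b : ℚ) := by rw [ha, hb]; push_cast; rfl
  refine ⟨a / b, e, ?_, fun s s4 hs => ?_⟩
  · have : (1 : ℝ) ≤ (a / b : ℚ) := by rw [← e, le_div_iff₀ (by linarith)]; linarith
    exact_mod_cast this
  · rw [← e, div_lt_iff₀ (by linarith)]
    by_cases c : 4 < G.circ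
    · nlinarith [G.two_lt_cheb h c]
    · nlinarith

end Pool.Agent.Lib.MP_5c9ca0_co
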