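import Pool.Agent.Lib.MP_5c9ca0_co.Q.Net

/-! Networks with prescribed capacity; every rational of `[2, 4]` is a circular flow number. -/

namespace Pool.Agent.Lib.MP_5c9ca0_co

/-- Capacity `μ` at the level `R`, and a smaller one modulo `r` at each level `r < R`. -/
structure Good (R μ : ℝ) (N : Net) : Prop where
  up : ∀ c, |c| ≤ μ → N.Car (R - 1) c
  lo : ∀ r, r < R → ∀ c, N.Car (r - 1) c → ∃ j : ℤ, |c - j * r| ≤ μ - (R - r)

/-- The values stay at distance `κ` from the multiples of `r`. -/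
structure Diag (R κ : ℝ) (N : Net) : Prop where
  up : N.Car (R - 1) κ
  lo : ∀ r, r < R → ∀ c, N.Car (r - 1) c → ∀ j : ℤ, κ ≤ |c - j * r|

/-- The values fill an arc of length `l` at the level `R` and lie in a shorter arc below. -/
structure Side (R s l : ℝ) (N : Net) : Prop where
  up : ∀ c, s ≤ c → c ≤ s + l → N.Car (R - 1) c
  lo : ∀ r, r < R → ∃ s' l', l' ≤ l - (R - r) ∧ ∀ c, N.Car (r - 1) c →
    2 * l' < r ∧ ∃ j : ℤ, s' ≤ c - j * r ∧ c - j * r ≤ s' + l'

variable {R μ ν κ s l : ℝ} {M N : Net}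

theorem one_arc {r c : ℝ} (h : Net.one.Car (r - 1) c) :
    ∃ j : ℤ, 1 ≤ c - j * r ∧ c - j * r ≤ 1 + (r - 2) := by
  obtain ⟨h1, h2⟩ := Net.one_car.1 h
  rw [abs_le] at h2
  rcases le_abs.1 h1 with k | k
  · exact ⟨0, by push_cast; linarith, by push_cast; linarith⟩
  · exact ⟨-1, by push_cast; linarith, by push_cast; linarith⟩

theorem side_one (h : R ≤ 4) : Side R 1 (R - 2) Net.one where
  up c h1 h2 := Net.one_car.2 (by rw [abs_of_pos (by linarith)]; exact ⟨h1, by linarith⟩)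
  lo r hr := ⟨1, r - 2, by linarith, fun c hc => ⟨by linarith, one_arc hc⟩⟩

theorem Good.side (h : Good R μ N) (h4 : 4 * μ ≤ R) : Side R (-μ) (2 * μ) N where
  up c h1 h2 := h.up c (abs_le.2 ⟨h1, by linarith⟩)
  lo r hr := ⟨-(μ - (R - r)), 2 * (μ - (R - r)), by linarith, fun c hc => ⟨by linarith, by
    obtain ⟨j, hj⟩ := h.lo r hr c hc
    rw [abs_le] at hj
    exact ⟨j, hj.1, by linarith⟩⟩⟩

theorem diag_one (h : 2 ≤ R) : Diag R 1 Net.one where
  up := Net.one_car.2 (by rw [abs_one]; exact ⟨le_rfl, by linarith⟩)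
  lo r _ c hc j := by
    obtain ⟨i, h1, h2⟩ := one_arc hc
    rcases le_or_gt j i with k | k
    · have : (j : ℝ) ≤ i := by exact_mod_cast k
      exact le_abs.2 (Or.inl (by nlinarith))
    · have : (i : ℝ) + 1 ≤ j := by exact_mod_cast k
      exact le_abs.2 (Or.inr (by nlinarith))

theorem Diag.par (h : Diag R κ M) (k : Good R μ N) (h0 : 0 ≤ μ) : Diag R (κ - μ) (M.par N) where
  up := Net.par_car.2 ⟨κ, -μ, h.up, k.up _ (by rw [abs_neg, abs_of_nonneg h0]), by ring⟩
  lo r hr c hc j := by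
    obtain ⟨x, y, hx, hy, rfl⟩ := Net.par_car.1 hc
    obtain ⟨i, hi⟩ := k.lo r hr y hy
    have := h.lo r hr x hx (j - i)
    have e : x - ((j - i : ℤ) : ℝ) * r = (x + y - j * r) - (y - i * r) := by push_cast; ring
    rw [e] at this
    linarith [abs_sub (x + y - j * r) (y - i * r)]

theorem Good.par (h : Good R μ M) (k : Good R ν N) (h0 : 0 ≤ μ) (k0 : 0 ≤ ν) :
    Good R (μ + ν) (M.par N) where
  up c hc := by
    rw [abs_le] at hc
    refine Net.par_car.2 ⟨max (-μ) (min μ c), c - max (-μ) (min μ c), h.up _ ?_, k.up _ ?_,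
      by ring⟩ <;> rw [abs_le, max_def, min_def] <;> split_ifs <;> constructor <;> linarith
  lo r hr c hc := by
    obtain ⟨x, y, hx, hy, rfl⟩ := Net.par_car.1 hc
    obtain ⟨i, hi⟩ := h.lo r hr x hx
    obtain ⟨j, hj⟩ := k.lo r hr y hy
    rw [abs_le] at hi hj
    exact ⟨i + j, abs_le.2 ⟨by push_cast; linarith, by push_cast; linarith⟩⟩

theorem good_two : Good R (R - 2) (Net.one.par Net.one) where
  up c hc := by
    rw [abs_le] at hc
    refine Net.par_car.2 ⟨R / 2 + c / 2, -(R / 2 - c / 2), Net.one_car.2 ?_, Net.one_car.2 ?_,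
      by ring⟩
    · rw [abs_of_pos (by linarith)]
      constructor <;> linarith
    · rw [abs_neg, abs_of_pos (by linarith)]
      constructor <;> linarith
  lo r hr c hc := by
    obtain ⟨x, y, hx, hy, rfl⟩ := Net.par_car.1 hc
    obtain ⟨i, hi⟩ := one_arc hx
    obtain ⟨j, hj⟩ := one_arc hy.neg
    exact ⟨i - j, abs_le.2 ⟨by push_cast; linarith, by push_cast; linarith⟩⟩

theorem Side.br (h : Side R s l M) (k : Diag R κ N) (h0 : 0 ≤ κ) : Good R (l - κ) (M.br N) where
  up c hc := by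
    rw [abs_le] at hc
    exact Net.br_car.2 ⟨s + (κ + l) / 2 + c / 2, s + (κ + l) / 2 - c / 2, κ,
      h.up _ (by linarith) (by linarith), h.up _ (by linarith) (by linarith),
      h.up _ (by linarith) (by linarith), h.up _ (by linarith) (by linarith), k.up, by ring⟩
  lo r hr c hc := by
    obtain ⟨p, q, z, h1, h2, h3, h4, h5, rfl⟩ := Net.br_car.1 hc
    obtain ⟨s', l', hl, H⟩ := h.lo r hr
    obtain ⟨hl2, i1, a1, b1⟩ := H _ h1
    obtain ⟨-, i2, a2, b2⟩ := H _ h2
    obtain ⟨-, i3, a3, b3⟩ := H _ h3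
    obtain ⟨-, i4, a4, b4⟩ := H _ h4
    have r0 : 0 < r := by linarith
    have e : i1 - i2 = i3 - i4 := by
      have u1 : ((i1 - i2 - (i3 - i4) : ℤ) : ℝ) < (1 : ℤ) := by
        push_cast
        exact lt_of_mul_lt_mul_right (a := r) (by linarith) r0.le
      have u2 : ((-1 : ℤ) : ℝ) < (i1 - i2 - (i3 - i4) : ℤ) := by
        push_cast
        exact lt_of_mul_lt_mul_right (a := r) (by linarith) r0.le
      have := Int.cast_lt.1 u1
      have := Int.cast_lt.1 u2
      omega
    have e' : (i1 : ℝ) * r - i2 * r = i3 * r - i4 * r := by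
      rw [← sub_mul, ← sub_mul]
      congr 1
      exact_mod_cast e
    have d := le_abs.1 (k.lo r hr z h5 (i1 - i2))
    refine ⟨i1 - i3, abs_le.2 ?_⟩
    push_cast at d ⊢
    rcases d with d | d <;> constructor <;> linarith

/-- The capacities that occur at the level `R`. -/
def Cp (R μ : ℝ) : Prop := ∃ N, Good R μ N

theorem Cp.add (h : Cp R μ) (k : Cp R ν) (h0 : 0 ≤ μ) (k0 : 0 ≤ ν) : Cp R (μ + ν) :=
  ⟨_, h.choose_spec.par k.choose_spec h0 k0⟩

theorem Cp.diag (h : Cp R μ) (h0 : 0 ≤ μ) (h2 : 2 ≤ R) (k : ℕ) :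
    ∃ D, Diag R (1 - k * μ) D := by
  induction k with
  | zero => exact ⟨_, by simpa using diag_one h2⟩
  | succ k ih =>
    obtain ⟨D, hD⟩ := ih
    exact ⟨_, by convert hD.par h.choose_spec h0 using 1; push_cast; ring⟩

theorem Cp.mul (h : Cp R μ) (h0 : 0 ≤ μ) (k : ℕ) : Cp R ((k + 1) * μ) := by
  induction k with
  | zero => simpa using h
  | succ k ih => convert ih.add h (by positivity) h0 using 1; push_cast; ring

theorem cp_three (h2 : 2 < R) (h3 : R ≤ 3) (j : ℕ) :
    ∃ x, Cp R x ∧ 0 < x ∧ x ≤ 1 ∧ ∃ i : ℤ, x = (j + 1) * (R - 2) - i := by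
  induction j with
  | zero => exact ⟨R - 2, ⟨_, good_two⟩, by linarith, by linarith, 0, by simp⟩
  | succ j ih =>
    obtain ⟨x, hx, x0, x1, i, hi⟩ := ih
    by_cases c : x + (R - 2) ≤ 1
    · exact ⟨_, hx.add ⟨_, good_two⟩ x0.le (by linarith), by linarith, c, i, by
        push_cast; linarith⟩
    · obtain ⟨D, hD⟩ := hx.diag x0.le h2.le 1
      exact ⟨_, ⟨_, (side_one (by linarith)).br hD (by push_cast; linarith)⟩,
        by push_cast; linarith, by push_cast; linarith, i + 1, by push_cast; linarith⟩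

theorem cp_euclid (h2 : 2 ≤ R) (c : ℕ) (hc : 0 < c) (a : ℕ) : 0 < a → a ≤ c →
    4 * ((a : ℝ) / c) ≤ R → Cp R (a / c) → Cp R 1 := by
  induction a using Nat.strong_induction_on with
  | _ a ih =>
    intro a0 ac h4 h
    have c0 : (0 : ℝ) < c := by exact_mod_cast hc
    have x0 : (0 : ℝ) ≤ a / c := by positivity
    obtain ⟨k, hk⟩ : ∃ k, c / a = k + 1 := ⟨c / a - 1, by have := Nat.div_pos ac a0; omega⟩
    have e := Nat.div_add_mod c a
    have lt := Nat.mod_lt c a0
    rw [hk] at e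
    have e' : (a : ℝ) * (k + 1) + (c % a : ℕ) = c := by exact_mod_cast e
    by_cases z : c % a = 0
    · convert h.mul x0 k using 1
      rw [z] at e'
      field_simp
      push_cast at e'
      linarith
    · obtain ⟨D, hD⟩ := h.diag x0 h2 k
      have p : (0 : ℝ) ≤ (c % a : ℕ) := by positivity
      have a0' : (0 : ℝ) ≤ a := by positivity
      have g := (h.choose_spec.side h4).br hD (by
        rw [sub_nonneg, ← mul_div_assoc, div_le_one c0]; linarith)
      have s : ((a - c % a : ℕ) : ℝ) = a - (c % a : ℕ) := Nat.cast_sub lt.le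
      refine ih (a - c % a) (by omega) (by omega) (by omega) ?_ ⟨h.choose.br D, ?_⟩
      · refine le_trans ?_ h4
        gcongr
        omega
      · convert g using 1
        rw [s]
        field_simp
        linarith

theorem cp_one (q : ℚ) (h2 : 2 < q) (h4 : q ≤ 4) : Cp q 1 := by
  have h2' : (2 : ℝ) < q := by exact_mod_cast h2
  have h4' : (q : ℝ) ≤ 4 := by exact_mod_cast h4
  have d0 : (0 : ℝ) < q.den := by exact_mod_cast q.pos
  have e : (q : ℝ) * q.den = q.num := by exact_mod_cast q.mul_den_eq_num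
  rcases le_or_gt (q : ℝ) 3 with h3 | h3
  · obtain ⟨x, hx, x0, x1, i, hi⟩ := cp_three h2' h3 (q.den - 1)
    have : x = (q.num - 2 * q.den - i : ℤ) := by
      rw [hi, Nat.cast_sub q.pos]
      push_cast
      linarith
    generalize q.num - 2 * q.den - i = u at this
    rw [this] at hx x0 x1
    have u0 : 0 < u := by exact_mod_cast x0
    have u1 : u ≤ 1 := by exact_mod_cast x1
    obtain rfl : u = 1 := by omega
    simpa using hx
  · have g := (side_one h4').br (diag_one h2'.le) zero_le_one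
    have l1 : ((3 * q.den : ℤ) : ℝ) < q.num := by push_cast; nlinarith
    have l2 : (q.num : ℝ) ≤ (4 * q.den : ℤ) := by push_cast; nlinarith
    have l1 := Int.cast_lt.1 l1
    have l2 := Int.cast_le.1 l2
    obtain ⟨a, ha⟩ : ∃ a : ℕ, (a : ℤ) = q.num - 3 * q.den := Int.eq_ofNat_of_zero_le (by omega) |>.imp
      fun _ => Eq.symm
    have ea : (a : ℝ) / q.den = q - 2 - 1 := by
      have : (a : ℝ) = q.num - 3 * q.den := by exact_mod_cast ha
      rw [div_eq_iff d0.ne']
      linarith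
    exact cp_euclid h2'.le q.den q.pos a (by omega) (by omega) (by rw [ea]; linarith)
      (ea ▸ ⟨_, g⟩)

theorem exists_least (q : ℚ) (h2 : 2 ≤ q) (h4 : q ≤ 4) :
    ∃ (n m : ℕ) (G : MGraph n m), IsLeast G.S1 (q : ℝ) := by
  rcases h2.eq_or_lt with rfl | h2
  · refine ⟨_, _, (Net.one.par Net.one).toM, (Net.mem_S1 _ _).2 ⟨by simp, ?_⟩, fun r hr => ?_⟩
    · exact good_two.up 0 (by simp)
    · simpa using hr.1
  · obtain ⟨N, hN⟩ := cp_one q h2 h4
    have h2' : (2 : ℝ) ≤ q := by exact_mod_cast h2.le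
    refine ⟨_, _, (Net.one.par N).toM, (Net.mem_S1 _ _).2 ⟨h2', ?_⟩, fun r hr => ?_⟩
    · simpa using ((diag_one h2').par hN zero_le_one).up
    · by_contra c
      obtain ⟨x, y, hx, hy, e⟩ := Net.par_car.1 ((Net.mem_S1 _ _).1 hr).2
      obtain ⟨j, hj⟩ := hN.lo r (not_le.1 c) y hy
      have := (diag_one h2').lo r (not_le.1 c) _ hx.neg j
      rw [show -x = y by linarith] at this
      linarith [not_le.1 c]

end Pool.Agent.Lib.MP_5c9ca0_co
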