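import Pool.Agent.Lib.MP_5c9ca0_co.Q.Gen

/-! Two-terminal networks and substitution. -/

namespace Pool.Agent.Lib.MP_5c9ca0_co

open Finset

/-- Inflow minus outflow for arbitrary finite types. -/
noncomputable def dvg {X E : Type} [Fintype E] (s t : E → X) (φ : E → ℝ) (w : X) : ℝ :=
  open Classical in ∑ e, ((if t e = w then φ e else 0) - (if s e = w then φ e else 0))

open Classical in
theorem dvg_sum {X E : Type} [Fintype X] [Fintype E] (s t : E → X) (φ : E → ℝ) :
    ∑ w, dvg s t φ w = 0 := by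
  unfold dvg
  rw [sum_comm]
  refine sum_eq_zero fun e _ => ?_
  rw [sum_sub_distrib, sum_ite_eq, sum_ite_eq, if_pos (mem_univ _), if_pos (mem_univ _), sub_self]

open Classical in
theorem dvg_map {X Y E : Type} [Fintype X] [Fintype E] (g : X → Y) (s t : E → X) (φ : E → ℝ)
    (w : Y) : dvg (fun e => g (s e)) (fun e => g (t e)) φ w =
      ∑ x, if g x = w then dvg s t φ x else 0 := by
  have : ∀ x, (if g x = w then dvg s t φ x else 0) = ∑ e,
      ((if t e = x then (if g x = w then φ e else 0) else 0) -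
        (if s e = x then (if g x = w then φ e else 0) else 0)) := fun x => by
    unfold dvg
    split_ifs <;> simp
  simp only [this]
  rw [sum_comm]
  simp [dvg, sum_sub_distrib]

/-- A network with two terminals and inner vertices `I`. -/
structure Net where
  I : Type
  E : Type
  fI : Fintype I
  fE : Fintype E
  s : E → Bool ⊕ I
  t : E → Bool ⊕ I

attribute [instance] Net.fI Net.fE

/-- The boundary of a flow of value `c`. -/
def bdy {I : Type} (c : ℝ) : Bool ⊕ I → ℝ
  | .inl true => c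
  | .inl false => -c
  | .inr _ => 0

/-- The network carries the value `c` with all edge values in `[1, T]` up to sign. -/
def Net.Car (N : Net) (T c : ℝ) : Prop :=
  ∃ φ : N.E → ℝ, (∀ e, 1 ≤ |φ e| ∧ |φ e| ≤ T) ∧ ∀ w, dvg N.s N.t φ w = bdy c w

theorem Net.Car.neg {N : Net} {T c : ℝ} (h : N.Car T c) : N.Car T (-c) := by
  obtain ⟨φ, h1, h2⟩ := h
  refine ⟨fun e => -φ e, by simpa using h1, fun w => ?_⟩
  have : dvg N.s N.t (fun e => -φ e) w = -dvg N.s N.t φ w := by
    unfold dvg
    rw [← sum_neg_distrib]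
    exact sum_congr rfl fun e _ => by split_ifs <;> simp
  rw [this, h2]
  rcases w with (_ | _) | _ <;> simp [bdy]

/-- A single edge. -/
abbrev Net.one : Net :=
  ⟨Empty, Unit, inferInstance, inferInstance, fun _ => .inl false, fun _ => .inl true⟩

theorem Net.one_car {T c : ℝ} : Net.one.Car T c ↔ 1 ≤ |c| ∧ |c| ≤ T := by
  constructor
  · rintro ⟨φ, h1, h2⟩
    have := h2 (.inl true)
    have k : φ () = c := by simpa [dvg, bdy] using this
    exact k ▸ h1 ()
  · intro h
    refine ⟨fun _ => c, fun _ => h, ?_⟩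
    rintro ((_ | _) | ⟨⟨⟩⟩) <;> simp [dvg, bdy]

section
variable {J F : Type} [Fintype J] [Fintype F] (a b : F → Bool ⊕ J) (N : F → Net)

/-- Position of the vertices of a part in the composite network. -/
def emb (f : F) : Bool ⊕ (N f).I → Bool ⊕ (J ⊕ Σ f, (N f).I)
  | .inl true => (b f).map id .inl
  | .inl false => (a f).map id .inl
  | .inr i => .inr (.inr ⟨f, i⟩)

/-- Substitution of networks for the edges of a template. -/
abbrev Net.sub : Net where
  I := J ⊕ Σ f, (N f).I
  E := Σ f, (N f).E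
  fI := inferInstance
  fE := inferInstance
  s e := emb a b N e.1 ((N e.1).s e.2)
  t e := emb a b N e.1 ((N e.1).t e.2)

open Classical in
theorem sub_dvg (φ : (Σ f, (N f).E) → ℝ) (w) : dvg (Net.sub a b N).s (Net.sub a b N).t φ w =
    ∑ f, ∑ x, if emb a b N f x = w then dvg (N f).s (N f).t (fun e => φ ⟨f, e⟩) x else 0 := by
  rw [dvg, Fintype.sum_sigma]
  refine sum_congr rfl fun f _ => ?_
  convert dvg_map (emb a b N f) (N f).s (N f).t (fun e => φ ⟨f, e⟩) w using 1
  · rfl
  · congr!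

theorem sub_in (φ : (Σ f, (N f).E) → ℝ) (f : F) (i : (N f).I) :
    dvg (Net.sub a b N).s (Net.sub a b N).t φ (.inr (.inr ⟨f, i⟩)) =
      dvg (N f).s (N f).t (fun e => φ ⟨f, e⟩) (.inr i) := by
  classical
  have h : ∀ (z : Bool ⊕ J), (z.map id .inl : Bool ⊕ (J ⊕ Σ f, (N f).I)) ≠ .inr (.inr ⟨f, i⟩) := by
    rintro (_ | _) <;> simp
  rw [sub_dvg, sum_eq_single f, sum_eq_single (.inr i)]
  · simp [emb]
  · rintro ((_ | _) | j) _ hj
    · simp [emb, h]
    · simp [emb, h]
    · have : j ≠ i := fun k => hj (by rw [k])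
      simp [emb, this]
  · simp
  · intro g _ hg
    refine sum_eq_zero ?_
    rintro ((_ | _) | j) _
    · simp [emb, h]
    · simp [emb, h]
    · simp [emb, hg]
  · simp

theorem sub_out (φ : (Σ f, (N f).E) → ℝ) (ψ : F → ℝ)
    (h : ∀ f w, dvg (N f).s (N f).t (fun e => φ ⟨f, e⟩) w = bdy (ψ f) w) (z : Bool ⊕ J) :
    dvg (Net.sub a b N).s (Net.sub a b N).t φ (z.map id .inl) = dvg a b ψ z := by
  classical
  have inj : Function.Injective
      (Sum.map id .inl : Bool ⊕ J → Bool ⊕ (J ⊕ Σ f, (N f).I)) :=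
    Function.injective_id.sumMap Sum.inl_injective
  rw [sub_dvg, dvg]
  refine sum_congr rfl fun f _ => ?_
  simp only [h, Fintype.sum_sum_type, Fintype.sum_bool, emb, bdy, inj.eq_iff, ite_self,
    sum_const_zero, add_zero]
  split_ifs <;> simp

theorem Net.sub_car {T c : ℝ} : (Net.sub a b N).Car T c ↔
    ∃ ψ : F → ℝ, (∀ f, (N f).Car T (ψ f)) ∧ ∀ z, dvg a b ψ z = bdy c z := by
  have hb : ∀ z : Bool ⊕ J, bdy c (z.map id .inl : Bool ⊕ (J ⊕ Σ f, (N f).I)) = bdy c z := by
    rintro ((_ | _) | _) <;> rfl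
  constructor
  · rintro ⟨φ, h1, h2⟩
    have key : ∀ f w, dvg (N f).s (N f).t (fun e => φ ⟨f, e⟩) w =
        bdy (dvg (N f).s (N f).t (fun e => φ ⟨f, e⟩) (.inl true)) w := by
      intro f
      have inn : ∀ i, dvg (N f).s (N f).t (fun e => φ ⟨f, e⟩) (.inr i) = 0 := fun i => by
        rw [← sub_in a b N φ f i]
        exact h2 _
      have tot := dvg_sum (N f).s (N f).t fun e => φ ⟨f, e⟩
      simp only [Fintype.sum_sum_type, Fintype.sum_bool, inn, sum_const_zero, add_zero] at tot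
      rintro ((_ | _) | i)
      · exact eq_neg_of_add_eq_zero_right tot
      · rfl
      · exact inn i
    exact ⟨_, fun f => ⟨_, fun e => h1 ⟨f, e⟩, key f⟩, fun z => by
      rw [← sub_out a b N φ _ key z, ← hb]; exact h2 _⟩
  · rintro ⟨ψ, h1, h2⟩
    choose φ p1 p2 using h1
    refine ⟨fun e => φ e.1 e.2, fun e => p1 _ _, ?_⟩
    have out := fun z => (sub_out a b N (fun e => φ e.1 e.2) ψ p2 z).trans ((h2 z).trans (hb z).symm)
    rintro (z | j | ⟨f, i⟩)
    · exact out (.inl z)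
    · exact out (.inr j)
    · exact (sub_in a b N _ f i).trans (p2 f _)

end

/-- Parallel composition. -/
def Net.par (M N : Net) : Net :=
  Net.sub (J := Empty) (F := Bool) (fun _ => .inl false) (fun _ => .inl true)
    fun f => if f then M else N

theorem Net.par_car {M N : Net} {T c : ℝ} :
    (M.par N).Car T c ↔ ∃ x y, M.Car T x ∧ N.Car T y ∧ c = x + y := by
  rw [Net.par, Net.sub_car]
  constructor
  · rintro ⟨ψ, h1, h2⟩
    refine ⟨ψ true, ψ false, h1 true, h1 false, ?_⟩
    simpa [dvg, bdy] using (h2 (.inl true)).symm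
  · rintro ⟨x, y, hx, hy, rfl⟩
    refine ⟨fun f => if f then x else y, by rintro (_ | _) <;> assumption, ?_⟩
    rintro ((_ | _) | ⟨⟨⟩⟩) <;> simp [dvg, bdy, add_comm]

/-- Four sides `S` and a diagonal `D`. -/
def Net.br (S D : Net) : Net :=
  Net.sub (J := Bool) (F := Fin 5) ![.inl false, .inr false, .inl false, .inr true, .inr false]
    ![.inr false, .inl true, .inr true, .inl true, .inr true] ![S, S, S, S, D]

theorem Net.br_car {S D : Net} {T c : ℝ} : (S.br D).Car T c ↔ ∃ p q z, S.Car T p ∧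
    S.Car T (p - z) ∧ S.Car T q ∧ S.Car T (q - z) ∧ D.Car T z ∧ c = p - q := by
  rw [Net.br, Net.sub_car]
  constructor
  · rintro ⟨ψ, h1, h2⟩
    have a := h2 (.inl false)
    have b := h2 (.inr false)
    have d := h2 (.inr true)
    simp [dvg, bdy, Fin.sum_univ_five] at a b d
    refine ⟨ψ 0, -ψ 2, ψ 4, h1 0, ?_, (h1 2).neg, ?_, h1 4, by linarith⟩
    · rw [show ψ 0 - ψ 4 = ψ 1 by linarith]
      exact h1 1
    · rw [show -ψ 2 - ψ 4 = -ψ 3 by linarith]
      exact (h1 3).neg
  · rintro ⟨p, q, z, h0, h1, h2, h3, h4, rfl⟩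
    refine ⟨![p, p - z, -q, -(q - z), z], fun f => ?_, ?_⟩
    · fin_cases f
      exacts [h0, h1, h2.neg, h3.neg, h4]
    · rintro ((_ | _) | (_ | _)) <;> simp [dvg, bdy, Fin.sum_univ_five] <;> ring

/-- The graph of a network. -/
noncomputable def Net.toM (N : Net) : MGraph (Fintype.card (Bool ⊕ N.I)) (Fintype.card N.E) :=
  ⟨fun e => Fintype.equivFin _ (N.s ((Fintype.equivFin _).symm e)),
    fun e => Fintype.equivFin _ (N.t ((Fintype.equivFin _).symm e))⟩

theorem Net.toM_flow (N : Net) (φ : N.E → ℝ) :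
    N.toM.IsFlow (fun e => φ ((Fintype.equivFin _).symm e)) ↔ ∀ w, dvg N.s N.t φ w = bdy 0 w := by
  rw [MGraph.flow_iff, ← (Fintype.equivFin _).forall_congr_right]
  refine forall_congr' fun w => ?_
  have : bdy 0 w = 0 := by rcases w with (_ | _) | _ <;> simp [bdy]
  rw [this, MGraph.dv, dvg, ← (Fintype.equivFin N.E).sum_comp]
  refine Eq.congr_left (sum_congr rfl fun e _ => ?_)
  simp only [Net.toM, Equiv.symm_apply_apply]
  congr! 2 <;> exact Equiv.apply_eq_iff_eq _

theorem Net.mem_S1 (N : Net) (r : ℝ) : r ∈ N.toM.S1 ↔ 2 ≤ r ∧ N.Car (r - 1) 0 := by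
  refine and_congr_right fun _ => ⟨?_, ?_⟩
  · rintro ⟨φ, h, b⟩
    refine ⟨fun e => φ (Fintype.equivFin _ e), fun e => b _, (N.toM_flow _).1 ?_⟩
    simpa using h
  · rintro ⟨φ, b, h⟩
    exact ⟨_, (N.toM_flow φ).2 h, fun e => b _⟩

end Pool.Agent.Lib.MP_5c9ca0_co
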